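import Pool.Agent.H37.CNT.Stmts

/-!
# Denominators of conductors, board `cnt`, row PU3
-/

set_option autoImplicit false

namespace Pool.CND

open Finset

private theorem pu3_fix {k L : Type} [Field k] [Field L] [Algebra k L] {s : L} (σ : L ≃ₐ[k] L)
    (hs : σ s = s) {z : L} (hz : z ∈ IntermediateField.adjoin k {s}) : σ z = z := by
  induction hz using IntermediateField.adjoin_induction with
  | mem x hx =>
    rw [Set.mem_singleton_iff.1 hx]
    exact hs
  | algebraMap c => exact AlgEquiv.commutes σ c
  | add x y _ _ hx hy => rw [map_add, hx, hy]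
  | inv x _ hx => rw [map_inv₀, hx]
  | mul x y _ _ hx hy => rw [map_mul, hx, hy]

private theorem pu3_map {k L L' : Type} [Field k] [Field L] [Field L'] [Algebra k L]
    [Algebra k L'] (j : L →ₐ[k] L') {t : L} {s : L'} (m : ℕ) (hs : s ^ m = j t) {z : L}
    (hz : z ∈ IntermediateField.adjoin k {t}) : j z ∈ IntermediateField.adjoin k {s} := by
  induction hz using IntermediateField.adjoin_induction with
  | mem x hx =>
    rw [Set.mem_singleton_iff.1 hx, ← hs]
    exact pow_mem (IntermediateField.mem_adjoin_simple_self k s) m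
  | algebraMap c =>
    rw [AlgHom.commutes]
    exact IntermediateField.algebraMap_mem _ c
  | add x y _ _ hx hy =>
    rw [map_add]
    exact add_mem hx hy
  | inv x _ hx =>
    rw [map_inv₀]
    exact inv_mem hx
  | mul x y _ _ hx hy =>
    rw [map_mul]
    exact mul_mem hx hy

theorem pu3_thm (hRSP : S_RSP) : S_PU3 := by
  intro k L L' G _ _ _ _ _ _ _ P t m j s P' ρ ρ' hm hcov hPB hact hs
  have htr : Transcendental k s := by
    intro h
    apply hcov.trans
    have h1 : IsAlgebraic k (s ^ m) := h.pow m
    rw [hPB.pow] at h1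
    exact (isAlgebraic_algHom_iff j j.injective).1 h1
  have hs0 : s ≠ 0 := by
    intro h
    apply htr
    rw [h]
    exact isAlgebraic_zero
  refine ⟨?_, htr, ?_, ?_⟩
  · rw [injective_iff_map_eq_one]
    intro g hg
    refine (injective_iff_map_eq_one ρ).1 hcov.inj g ?_
    ext z
    refine j.injective ?_
    change j (ρ g z) = j z
    rw [← hact, hg]
    rfl
  · intro x
    constructor
    · intro h
      obtain ⟨c, hc⟩ := hPB.span x
      have hfix : ∀ i, ∀ g : G, ρ g (c i) = c i := by
        intro i g
        have h1 : ∑ i, j (ρ g (c i) - c i) * s ^ (i : ℕ) = 0 := by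
          have h2 := h g
          rw [hc, map_sum] at h2
          simp only [map_mul, map_pow, hs, hact] at h2
          simp only [map_sub, sub_mul, Finset.sum_sub_distrib]
          rw [h2, sub_self]
        exact sub_eq_zero.1 (hPB.indep _ h1 i)
      rw [hc]
      refine sum_mem fun i _ => mul_mem ?_ ?_
      · exact pu3_map j m hPB.pow ((hcov.fixed (c i)).1 (hfix i))
      · exact pow_mem (IntermediateField.mem_adjoin_simple_self k s) _
    · intro h g
      exact pu3_fix (ρ' g) (hs g) h
  · intro Q' hQ' g hg
    obtain ⟨e, Q, he, hQ⟩ := hRSP k L L' j Q' t hcov.trans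
    have ht0 : t ≠ 0 := by
      intro h
      apply hcov.trans
      rw [h]
      exact isAlgebraic_zero
    have he0 : (0 : ℤ) < e := by exact_mod_cast he
    refine hcov.unram Q ?_ g ?_
    · have h1 := hQ t ht0
      rw [← hPB.pow, Q'.ord_pow hs0] at h1
      have h2 : (0 : ℤ) ≤ e * Q.ord t := by
        rw [h1]
        positivity
      exact nonneg_of_mul_nonneg_right h2 he0
    · intro z hz
      have hz1 : ρ g z ≠ 0 := fun h => hz ((map_eq_zero (ρ g)).1 h)
      have hz2 : j z ≠ 0 := fun h => hz ((map_eq_zero j).1 h)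
      have h1 := hQ (ρ g z) hz1
      rw [← hact, hg _ hz2, ← hQ z hz] at h1
      exact mul_left_cancel₀ he0.ne' h1

end Pool.CND
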